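import Pool.Agent.Work.MP_6d7a54_an.UP.Final
import Pool.Agent.Work.MP_6d7a54_an.UP.G_Geo
import Pool.Agent.Work.MP_6d7a54_an.UP.G_Scale
import Pool.Agent.Work.MP_6d7a54_an.UP.G_Step1
import Pool.Agent.Work.MP_6d7a54_an.UP.G_Engine
import Pool.Agent.Work.MP_6d7a54_an.UP.G_GRF
import Pool.Agent.Work.MP_6d7a54_an.UP.G_Fac
import Pool.Agent.Work.MP_6d7a54_an.UP.G_Point
import Pool.Agent.Work.MP_6d7a54_an.UP.G_End
import Pool.Agent.Work.MP_6d7a54_an.UP.G_L1
import Pool.Agent.Work.MP_6d7a54_an.UP.G_Local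
import Pool.Agent.Work.MP_6d7a54_an.UP.I_MM
import Pool.Agent.Work.MP_6d7a54_an.UP.I_BC
import Pool.Agent.Work.MP_6d7a54_an.UP.I_PJ
import Pool.Agent.Work.MP_6d7a54_an.UP.I_Grow

/-!
# The Kobayashi-Royden metric of the complement of a Fermat curve and coordinate lines

Partial answer to Q1 of MP_6d7a54_an in dimension `n = 2`.
-/

namespace Pool.Agent.Results.MP_6d7a54_an.FermatAndLines

open MvPolynomial Pool.Agent.Work.MP_6d7a54_an.UP

/-- Let `m ≥ 3`, let `J` be a set of coordinate lines with `2 (3 - |J|) < m`, and let `X` be the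
plane curve whose components are the Fermat curve `z_0^m + z_1^m + z_2^m = 0` and the lines
`z_i = 0`, `i ∈ J`. Then `X` is a normal crossing curve of degree `m + |J| ≥ 4`, and the
infinitesimal Kobayashi pseudometric of the complement of `X` is positive on all nonzero tangent
vectors at every point outside a proper plane curve of degree `3 m + 3`. -/
theorem result (m : ℕ) (J : Finset (Fin 3)) (hm : 3 ≤ m) (hJ : 2 * (3 - J.card) < m) :
    ((∀ k, (comp m J k).IsHomogeneous (cdeg m J k)) ∧ 4 ≤ ∑ k, cdeg m J k ∧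
      NormalCrossings (comp m J)) ∧
    ∃ Q : MvPolynomial (Fin 3) ℂ, Q ≠ 0 ∧ Q.IsHomogeneous (3 * m + 3) ∧
      ∀ w ∈ complement (comp m J), eval w Q ≠ 0 →
        ∀ v : Fin 3 → ℂ, (∀ c : ℂ, v ≠ c • w) →
          0 < kobayashiRoyden (complement (comp m J)) w v :=
  have hE : S_Engine := Engine_proof PJ_proof Grow_proof (GRF_proof BC_proof)
  have hS : S3_Step1 := Step1_proof hE Fac3_proof (Point3_proof Fac3_proof)
  have hL : S3_Local := Local_proof MM_proof Sym3_proof (End_proof (L1_proof hE))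
  final_of_geo (Geo_proof (Scale_proof hS hL)) m J hm hJ

end Pool.Agent.Results.MP_6d7a54_an.FermatAndLines
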